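import Pool.Agent.W294.MZ.Strong

/-!
# Mazur's dimension conjecture fails as posed (MP_aa8fd2_nt)

There are data `F = ℚ(√5)`, `n = 3`, `p = 2`, `S`, a finite field `k` of characteristic 2 and a
continuous absolutely irreducible `ρbar : G_{F,S} → GL_3(k)` with `δ(ρbar) = 1`, for which the
universal deformation ring exists (this is proved, not assumed) and `dim R/2R ≥ 2` for every
universal deformation ring `R` of `ρbar`.  In particular the dimension conjecture, as posed,
is false.
-/

set_option autoImplicit false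

namespace Pool.Agent.Results.MP_aa8fd2_nt.DimensionConjectureFails

open NumberField IsDedekindDomain

theorem result :
    (∃ (F Ω : Type) (_ : Field F) (_ : NumberField F) (_ : Field Ω) (_ : Algebra F Ω)
      (_ : IsAlgClosure F Ω) (S : Set (HeightOneSpectrum (𝓞 F)))
      (k : Type) (_ : Field k) (_ : Finite k) (_ : CharP k 2)
      (ρbar : MZ.GFS Ω S →* GL (Fin 3) k)
      (w : InfinitePlace F → InfinitePlace (MZ.FSmax S : IntermediateField F Ω)),
      (∃ s : F, s ^ 2 = 5 ∧ IntermediateField.adjoin ℚ {s} = ⊤) ∧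
      MZ.IsCounter F Ω S 2 k 3 ρbar w) ∧
    ¬ MZ.MazurDimension := by
  refine ⟨?_, MZ.not_mazur_of (MZ.counterexample_of MZ413.stmN MZ413.stmM MZ413.stmP)⟩
  obtain ⟨F, Ω, iF, iN, iΩ, iA, iC, S, k, ik, iFin, iP, ρbar, w, hs, hD, hδ, hE, hR⟩ := MZ.strong
  exact ⟨F, Ω, iF, iN, iΩ, iA, iC, S, k, ik, iFin, iP, ρbar, w, hs, hD, hδ, hE, hR⟩

end Pool.Agent.Results.MP_aa8fd2_nt.DimensionConjectureFails
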